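import Pool.Agent.Lib.MP_ab8df0_nt.T.Q5
import Pool.Agent.Lib.MP_ab8df0_nt.T.B71a.Core
import Pool.Agent.Lib.MP_ab8df0_nt.T.B71b.Core
import Pool.Agent.Lib.MP_ab8df0_nt.P.Q5a

/-! The case of the first power of the unit. -/

namespace Pool.Agent.Lib.MP_ab8df0_nt.T.B71

open B C P IsDedekindDomain NumberField

/-- the quantities attached to a solution; `t = v / u` -/
theorem lev {K : Type} [Field K] [NumberField K] {a m r0 t dr r : K} {u v y : ℤ}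
    (hA : ∀ p : HeightOneSpectrum (𝓞 K), ((10 : ℕ) : 𝓞 K) ∉ p.asIdeal → p.valuation K (a / 2) ≤ 1)
    (hn : a ^ 2 - 2 * m ^ 2 = -4) (hr0 : r0 * a = m)
    (h0 : a ^ 5 + 20 * a ^ 3 * m ^ 2 + 20 * a * m ^ 4 = 32)
    (h1 : 5 * a ^ 4 * m + 20 * a ^ 2 * m ^ 3 + 4 * m ^ 5 = 32)
    (huv : IsCoprime u v) (hu : Odd u) (hy : y ^ 2 = re5 2 u v + 2 * im5 2 u v)
    (ht : t * u = v) (hdr : dr = -4 * (a * (a + 2 * (t * m)))⁻¹) (hr : r = r0 + t * dr) :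
    (∀ p : HeightOneSpectrum (𝓞 K), ((10 : ℕ) : 𝓞 K) ∉ p.asIdeal →
      ∃ k : ℤ, p.valuation K (5 * (2 * r ^ 2 + 1) ^ 2 - 4) = WithZero.exp (2 * k)) ∧
      ∀ φ : K →+* ℝ, 0 < φ (5 * (2 * r ^ 2 + 1) ^ 2 - 4) := by
  have y0 : y ≠ 0 := fun q => by
    refine Int.not_even_iff_odd.2 (hu.pow (n := 5))
      ⟨-(10 * u ^ 3 * v ^ 2 + 10 * u * v ^ 4 + im5 2 u v), ?_⟩
    rw [q, re5] at hy
    linear_combination -hy
  have e := Q5.fac (A := a / 2) (B := m / 2) (d := 2) (e0 := 1) (e1 := 1) u v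
    (by push_cast; linear_combination (1 / 32) * h0) (by push_cast; linear_combination (1 / 32) * h1)
  rw [one_mul, mul_one, ← hy, Int.cast_pow] at e
  have hc := Q5.G4_cls (n := -1) hA (by push_cast; linear_combination (1 / 4) * hn) neg_one_sq
    (Or.inl (by norm_num)) huv y0 e
  have y1 := pow_ne_zero 2 ((Int.cast_ne_zero (α := K)).2 y0)
  rw [e] at y1
  have gp := Q5.G4_pos (by norm_num) (right_ne_zero_of_mul y1)
  have a0 : a ≠ 0 := fun q => by rw [q] at h0; norm_num at h0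
  have l0 : a + 2 * (t * m) ≠ 0 := fun q => left_ne_zero_of_mul y1 (by
    push_cast
    linear_combination (u / 2 : K) * q - m * ht)
  have e1 : dr * (a * (a + 2 * (t * m))) = -4 := by
    rw [hdr, mul_assoc, inv_mul_cancel₀ (mul_ne_zero a0 l0), mul_one]
  have e2 : r * (a + 2 * (t * m)) = m + t * a := mul_left_cancel₀ a0 (by
    rw [hr]
    linear_combination t * e1 + (a + 2 * (t * m)) * hr0 - t * hn)
  have e3 : (u : K) * (m / 2) + v * (a / 2) = r * (u * (a / 2) + (2 : ℤ) * v * (m / 2)) := by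
    push_cast
    linear_combination (-(u : K) / 2) * e2 + (r * m - a / 2) * ht
  rw [e3] at y1 hc gp
  generalize (u : K) * (a / 2) + (2 : ℤ) * v * (m / 2) = al at y1 hc gp
  have e4 : Q5.G4 ((2 : ℤ) : K) al (r * al) = (5 * (2 * r ^ 2 + 1) ^ 2 - 4) * al ^ 4 := by
    rw [Q5.G4]; push_cast; ring
  have hm : (5 * (2 * r ^ 2 + 1) ^ 2 - 4) * Q5.G4 ((2 : ℤ) : K) al (r * al) =
      ((5 * (2 * r ^ 2 + 1) ^ 2 - 4) * al ^ 2) ^ 2 := by rw [e4]; ring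
  have r1 : (5 * (2 * r ^ 2 + 1) ^ 2 - 4) * al ^ 2 ≠ 0 :=
    mul_ne_zero (left_ne_zero_of_mul (e4 ▸ right_ne_zero_of_mul y1))
      (pow_ne_zero 2 (left_ne_zero_of_mul y1))
  exact ⟨fun p hp => Q5.X_even hm r1 (hc p hp), fun φ => Q5.X_pos hm r1 φ (gp φ)⟩

theorem bb0 {K : Type} [Field K] [NumberField K] {a : K} {pl : List (Place K)}
    {ph : List (K →+* ℝ)} {w : List (HeightOneSpectrum (𝓞 K))}
    (hP : Pack K (FDQ5a.pick [1, 0]) a pl ph w) : BB71 := by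
  intro u v y huv hu hy
  by_contra hv
  have u0 : (u : K) ≠ 0 := Int.cast_ne_zero.2 fun q => by simp [q] at hu
  obtain ⟨t, ht⟩ : ∃ t : K, t = v / u := ⟨_, rfl⟩
  have hd : Q2 0 (t - ((0 : ℤ) : K)) := ht ▸ Q2.of_div hu (by simp)
  have t0 : 1 * t - 0 ≠ 0 := by
    rw [one_mul, sub_zero, ht]; exact div_ne_zero (Int.cast_ne_zero.2 hv) u0
  have hl := lev (t := t) (fun p hp => by simpa [ev] using hP.int0 [0, 1] (d := 2) (j := 1) rfl p hp)
    (B71a.relN hP) (B71a.relR hP) (by linear_combination B71a.rel0 hP)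
    (by linear_combination B71a.rel1 hP) huv hu hy (by rw [ht, div_mul_cancel₀ _ u0]) rfl rfl
  refine B71a.core hP t _ _ hd rfl rfl hl.1 (fun _ _ φ _ => hl.2 φ) fun hs => ?_
  have e1 : cval a B71a.vs 4 = cval a B71b.vs 7 := rfl
  have e2 : cval a B71a.vs 5 = cval a B71b.vs 20 := rfl
  rw [e1, e2, show ev a B71a.dl0.1 / (B71a.dl0.2 : K) = 2 * a by simp [B71a.dl0, ev, mul_comm]] at hs
  obtain ⟨dr, hdr⟩ : ∃ dr : K, dr = -4 * (a * (a + 2 * (t * cval a B71b.vs 7)))⁻¹ := ⟨_, rfl⟩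
  obtain ⟨r, hr⟩ : ∃ r : K, r = cval a B71b.vs 20 + t * dr := ⟨_, rfl⟩
  rw [← hdr, ← hr] at hs
  obtain ⟨s, hs'⟩ := id hs
  refine B71b.core hP t r _ (5 * a * r * s) dr _ hd hdr hr hs rfl ?_ rfl t0 ?_
  · rw [On, B71b.relA hP, B71b.relB hP]
    linear_combination (-25 * a ^ 2 * r ^ 2) * hs'
  · rw [B71b.relx hP]
    linear_combination (10 * a * (r + cval a B71b.vs 20)) * hr

theorem bb : BB71 := by
  obtain ⟨pl, ph, w, hP⟩ := P.Q5a.pack
  exact bb0 (hP.pick [1, 0])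

end Pool.Agent.Lib.MP_ab8df0_nt.T.B71
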